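import Pool.Agent.Helper36.AC.Tay
import Pool.Agent.Helper36.QL.ErLip

/-!
# AC-E, part 2: `er_lip`
-/

open Real Set

set_option autoImplicit false

namespace Pool.Agent.Helper3.AC

open Pool.Agent.Helper60.LT (Fr Tf xf yf df vf fr sl Cv Hom)
open Pool.Agent.Helper60.QL (R3 OM Gd scl scl_mem OM_pos)

/-- families of functions on the forms of size one, with parameters `P = (q, β, κ)` -/
def UK (S : Set (ℝ × ℝ × ℝ)) (B w : ℝ) (F : ℝ × ℝ × ℝ → R3 → ℝ → ℝ) : Prop :=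
  ∃ K : ℝ, 1 ≤ K ∧ ∀ P ∈ S, ∀ (δ : ℝ) (A A' : R3), 0 ≤ δ → A ∈ OM B 1 → A' ∈ OM B 1 → |A.1 - A'.1| ≤ δ →
    |A.2.1 - A'.2.1| ≤ δ → |A.2.2 - A'.2.2| ≤ δ → Gd w δ K (F P A) (F P A')

section

variable {S : Set (ℝ × ℝ × ℝ)} {B w c : ℝ} {F G : ℝ × ℝ × ℝ → R3 → ℝ → ℝ}

theorem UK.congr (h : UK S B w F) (e : ∀ P A τ, F P A τ = G P A τ) : UK S B w G := by
  have : F = G := funext fun P => funext fun A => funext fun τ => e P A τ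
  rwa [this] at h

theorem UK.add (h : UK S B w F) (k : UK S B w G) : UK S B w (fun P A τ => F P A τ + G P A τ) := by
  obtain ⟨K, hK, h⟩ := h
  obtain ⟨L, hL, k⟩ := k
  exact ⟨K + L, by linarith, fun P hP δ A A' h0 h1 h2 h3 h4 h5 =>
    (h P hP δ A A' h0 h1 h2 h3 h4 h5).add (k P hP δ A A' h0 h1 h2 h3 h4 h5)⟩

theorem UK.mul (h : UK S B w F) (k : UK S B w G) : UK S B w (fun P A τ => F P A τ * G P A τ) := by
  obtain ⟨K, hK, h⟩ := h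
  obtain ⟨L, hL, k⟩ := k
  exact ⟨4 * K * L, by nlinarith, fun P hP δ A A' h0 h1 h2 h3 h4 h5 =>
    (h P hP δ A A' h0 h1 h2 h3 h4 h5).mul (k P hP δ A A' h0 h1 h2 h3 h4 h5) h0 (by linarith) (by linarith)⟩

theorem UK.inv (h : UK S B w F) (hc : 0 < c) (hF : ∀ P ∈ S, ∀ A ∈ OM B 1, ∀ τ, |τ| ≤ w → c ≤ F P A τ) :
    UK S B w (fun P A τ => (F P A τ)⁻¹) := by
  obtain ⟨K, hK, h⟩ := h
  refine ⟨1 + (1 / c + K / c ^ 2 + 2 * K ^ 3 / c ^ 4), ?_, fun P hP δ A A' h0 h1 h2 h3 h4 h5 =>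
    ((h P hP δ A A' h0 h1 h2 h3 h4 h5).inv h0 (by linarith) hc (hF P hP A h1) (hF P hP A' h2)).weaken h0
      (by linarith)⟩
  have p1 : 0 ≤ 1 / c := by positivity
  have p2 : 0 ≤ K / c ^ 2 := by positivity
  have p3 : 0 ≤ 2 * K ^ 3 / c ^ 4 := by positivity
  linarith

theorem UK.sqrt (h : UK S B w F) (hc : 0 < c) (hF : ∀ P ∈ S, ∀ A ∈ OM B 1, ∀ τ, |τ| ≤ w → c ^ 2 ≤ F P A τ) :
    UK S B w (fun P A τ => √(F P A τ)) := by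
  obtain ⟨K, hK, h⟩ := h
  refine ⟨1 + K + K / c + 2 * K ^ 2 / c ^ 3, ?_, fun P hP δ A A' h0 h1 h2 h3 h4 h5 =>
    (h P hP δ A A' h0 h1 h2 h3 h4 h5).sqrt h0 (by linarith) hc (hF P hP A h1) (hF P hP A' h2)⟩
  have p2 : 0 ≤ K / c := by positivity
  have p3 : 0 ≤ 2 * K ^ 2 / c ^ 3 := by positivity
  linarith

/-- a bounded function of the parameters -/
theorem UK.prm (φ : ℝ × ℝ × ℝ → ℝ) (r : ℝ) (hr : ∀ P ∈ S, |φ P| ≤ r) : UK S B w (fun P _ _ => φ P) := by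
  refine ⟨1 + |r|, by linarith [abs_nonneg r], fun P hP δ A A' h0 h1 h2 h3 h4 h5 => ?_⟩
  have h6 := abs_nonneg r
  have h7 := (hr P hP).trans (le_abs_self r)
  refine ⟨fun _ _ => by linarith, fun _ _ => by linarith, fun τ τ' _ _ => ?_, fun τ τ' _ _ => ?_,
    fun _ _ => ?_, fun τ τ' _ _ => ?_⟩
  · rw [sub_self, abs_zero]; positivity
  · rw [sub_self, abs_zero]; positivity
  · rw [sub_self, abs_zero]; positivity
  · rw [sub_self, abs_zero]; positivity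

theorem UK.cst (r : ℝ) : UK S B w (fun _ _ _ => r) := UK.prm (fun _ => r) |r| fun _ _ => le_rfl

theorem UK.idn (hw : 0 ≤ w) : UK S B w (fun _ _ τ => τ) := by
  refine ⟨1 + w, by linarith, fun P hP δ A A' h0 h1 h2 h3 h4 h5 => ?_⟩
  refine ⟨fun _ h => by linarith, fun _ h => by linarith, fun τ τ' _ _ => ?_, fun τ τ' _ _ => ?_,
    fun _ _ => ?_, fun τ τ' _ _ => ?_⟩
  · nlinarith [abs_nonneg (τ - τ')]
  · nlinarith [abs_nonneg (τ - τ')]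
  · rw [sub_self, abs_zero]; positivity
  · rw [sub_self, sub_self, sub_zero, abs_zero]; positivity

/-- a family which does not depend on `τ` -/
theorem UK.lift {φ : ℝ × ℝ × ℝ → R3 → ℝ} (h : UK S B 0 (fun P A _ => φ P A)) : UK S B w (fun P A _ => φ P A) := by
  obtain ⟨K, hK, h⟩ := h
  refine ⟨K, hK, fun P hP δ A A' h0 h1 h2 h3 h4 h5 => ?_⟩
  have g := h P hP δ A A' h0 h1 h2 h3 h4 h5
  have z : |(0 : ℝ)| ≤ 0 := by simp
  refine ⟨fun _ _ => g.bf 0 z, fun _ _ => g.bg 0 z, fun τ τ' _ _ => ?_, fun τ τ' _ _ => ?_,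
    fun _ _ => g.d 0 z, fun τ τ' _ _ => ?_⟩
  · rw [sub_self, abs_zero]; positivity
  · rw [sub_self, abs_zero]; positivity
  · rw [sub_self, abs_zero]; positivity

theorem UK.c1 (hB : 1 ≤ B) : UK S B w (fun _ A _ => A.1) := by
  obtain ⟨K, hK, h⟩ := Pool.Agent.Helper60.QL.UG.c1 (B := B) (w := w) hB
  exact ⟨K, hK, fun P _ => h⟩

theorem UK.c2 (hB : 1 ≤ B) : UK S B w (fun _ A _ => A.2.1) := by
  obtain ⟨K, hK, h⟩ := Pool.Agent.Helper60.QL.UG.c2 (B := B) (w := w) hB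
  exact ⟨K, hK, fun P _ => h⟩

theorem UK.c3 (hB : 1 ≤ B) : UK S B w (fun _ A _ => A.2.2) := by
  obtain ⟨K, hK, h⟩ := Pool.Agent.Helper60.QL.UG.c3 (B := B) (w := w) hB
  exact ⟨K, hK, fun P _ => h⟩

end

/-- the set of parameters -/
def PS (c₁ b : ℝ) : Set (ℝ × ℝ × ℝ) := {P | c₁ ≤ P.1 ∧ P.1 ≤ b ∧ |P.2.1| ≤ b ∧ c₁ ≤ P.2.2 ∧ P.2.2 ≤ b}

section

variable {c₁ b B w : ℝ}

theorem y2_lo (hc : 0 < c₁) (hb : 1 ≤ b) (hB : 1 ≤ B) {κ : ℝ} (h1 : c₁ ≤ κ) (h2 : κ ≤ b) {A : R3} (hA : A ∈ OM B 1) :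
    1 / (b * B ^ 3) ≤ (A.2.1 ^ 2 - A.2.2 * A.1) / (κ * A.1 ^ 2) := by
  have h0 := OM_pos hB one_pos hA
  obtain ⟨a1, a2, a3, a4, a5⟩ := hA
  have hκ : 0 < κ := hc.trans_le h1
  rw [div_le_div_iff₀ (by positivity) (by positivity)]
  have e1 : A.1 ^ 2 ≤ B ^ 2 := pow_le_pow_left₀ h0.le (by linarith) 2
  have e2 : 1 ≤ B * (A.2.1 ^ 2 - A.2.2 * A.1) := by simpa using a5
  have e3 : κ * A.1 ^ 2 ≤ b * B ^ 2 := mul_le_mul h2 e1 (by positivity) (by linarith)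
  have e4 : b * B ^ 2 * 1 ≤ b * B ^ 2 * (B * (A.2.1 ^ 2 - A.2.2 * A.1)) :=
    mul_le_mul_of_nonneg_left e2 (by positivity)
  calc 1 * (κ * A.1 ^ 2) ≤ b * B ^ 2 * 1 := by linarith
    _ ≤ b * B ^ 2 * (B * (A.2.1 ^ 2 - A.2.2 * A.1)) := e4
    _ = (A.2.1 ^ 2 - A.2.2 * A.1) * (b * B ^ 3) := by ring

theorem uk_y (hc : 0 < c₁) (hb : 1 ≤ b) (hB : 1 ≤ B) : UK (PS c₁ b) B w (fun P A _ => yA P.2.2 A) := by
  refine UK.lift ?_
  have hB0 : 0 < B := by linarith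
  have u1 : UK (PS c₁ b) B 0 (fun _ A _ => A.1) := UK.c1 hB
  have u2 : UK (PS c₁ b) B 0 (fun _ A _ => A.2.1) := UK.c2 hB
  have u3 : UK (PS c₁ b) B 0 (fun _ A _ => A.2.2) := UK.c3 hB
  have uk : UK (PS c₁ b) B 0 (fun P _ _ => P.2.2) :=
    UK.prm _ b fun P hP => by
      obtain ⟨-, -, -, h4, h5⟩ := hP
      rw [abs_of_nonneg (hc.le.trans h4)]
      exact h5
  have i1 : UK (PS c₁ b) B 0 (fun P A _ => (P.2.2 * (A.1 * A.1))⁻¹) := by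
    refine UK.inv (c := c₁ * (1 / B * (1 / B))) (uk.mul (u1.mul u1)) (by positivity) fun P hP A hA τ _ => ?_
    obtain ⟨-, -, -, h4, h5⟩ := hP
    have h6 : 1 / B ≤ A.1 := by
      have := hA.1
      rw [div_le_iff₀ hB0]
      linarith
    have h7 : 0 < 1 / B := by positivity
    exact mul_le_mul h4 (mul_le_mul h6 h6 h7.le (h7.le.trans h6)) (by positivity) (hc.le.trans h4)
  have us : UK (PS c₁ b) B 0 (fun P A _ => (A.2.1 ^ 2 - A.2.2 * A.1) / (P.2.2 * A.1 ^ 2)) :=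
    (((u2.mul u2).add ((UK.cst (-1)).mul (u3.mul u1))).mul i1).congr fun P A τ => by
      rw [div_eq_mul_inv, sq, sq]
      ring
  refine UK.sqrt (c := √(1 / (b * B ^ 3))) us (by positivity) fun P hP A hA τ _ => ?_
  rw [Real.sq_sqrt (by positivity)]
  exact y2_lo hc hb hB hP.2.2.2.1 hP.2.2.2.2 hA

theorem yA_lo (hc : 0 < c₁) (hb : 1 ≤ b) (hB : 1 ≤ B) {κ : ℝ} (h1 : c₁ ≤ κ) (h2 : κ ≤ b) {A : R3} (hA : A ∈ OM B 1) :
    1 / (b * B ^ 3) ≤ yA κ A ^ 2 := by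
  have h := y2_lo hc hb hB h1 h2 hA
  unfold yA
  rwa [Real.sq_sqrt (le_trans (by positivity) h)]

theorem uk_T (hc : 0 < c₁) (hb : 1 ≤ b) (hB : 1 ≤ B) : UK (PS c₁ b) B w (fun P A _ => TA P.1 P.2.2 A) := by
  refine UK.lift ?_
  have hB0 : 0 < B := by linarith
  have u1 : UK (PS c₁ b) B 0 (fun _ A _ => A.1) := UK.c1 hB
  have uy : UK (PS c₁ b) B 0 (fun P A _ => yA P.2.2 A) := uk_y hc hb hB
  have uq : UK (PS c₁ b) B 0 (fun P _ _ => P.1) :=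
    UK.prm _ b fun P hP => by
      rw [abs_of_nonneg (hc.le.trans hP.1)]
      exact hP.2.1
  have i1 : UK (PS c₁ b) B 0 (fun P A _ => (P.1 * (yA P.2.2 A * yA P.2.2 A))⁻¹) := by
    refine UK.inv (c := c₁ * (1 / (b * B ^ 3))) (uq.mul (uy.mul uy)) (by positivity) fun P hP A hA τ _ => ?_
    have h1 := yA_lo hc hb hB hP.2.2.2.1 hP.2.2.2.2 hA
    rw [sq] at h1
    exact mul_le_mul hP.1 h1 (by positivity) (hc.le.trans hP.1)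
  exact ((UK.cst 2).mul (u1.mul i1)).congr fun P A τ => by
    unfold TA
    rw [div_eq_mul_inv, sq]
    ring

theorem uk_x (hc : 0 < c₁) (hb : 1 ≤ b) (hB : 1 ≤ B) : UK (PS c₁ b) B w (fun P A _ => xA P.2.1 P.2.2 A) := by
  refine UK.lift ?_
  have hB0 : 0 < B := by linarith
  have u1 : UK (PS c₁ b) B 0 (fun _ A _ => A.1) := UK.c1 hB
  have u2 : UK (PS c₁ b) B 0 (fun _ A _ => A.2.1) := UK.c2 hB
  have uy : UK (PS c₁ b) B 0 (fun P A _ => yA P.2.2 A) := uk_y hc hb hB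
  have ub : UK (PS c₁ b) B 0 (fun P _ _ => P.2.1) := UK.prm _ b fun P hP => hP.2.2.1
  have i1 : UK (PS c₁ b) B 0 (fun _ A _ => (A.1)⁻¹) := by
    refine UK.inv (c := 1 / B) u1 (by positivity) fun P hP A hA τ _ => ?_
    have := hA.1
    rw [div_le_iff₀ hB0]
    linarith
  exact (((UK.cst (-1)).mul (u2.mul i1)).add (ub.mul uy)).congr fun P A τ => by
    unfold xA
    rw [div_eq_mul_inv]
    ring

end

/-- the algebraic part of the remainder, divided by `τ ^ 5` -/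
noncomputable def Rr (P : ℝ × ℝ × ℝ) (A : R3) (τ : ℝ) : ℝ :=
  A.1 * (-(xA P.2.1 P.2.2 A ^ 3 * (1 + xA P.2.1 P.2.2 A * τ)⁻¹) +
    P.2.1 * yA P.2.2 A * (3 * xA P.2.1 P.2.2 A ^ 2 + 2 * xA P.2.1 P.2.2 A ^ 3 * τ) * (1 + xA P.2.1 P.2.2 A * τ)⁻¹ ^ 2 -
    (P.2.1 ^ 2 - P.2.2) * yA P.2.2 A ^ 2 * (3 * xA P.2.1 P.2.2 A + 3 * xA P.2.1 P.2.2 A ^ 2 * τ +
      xA P.2.1 P.2.2 A ^ 3 * τ ^ 2) * (1 + xA P.2.1 P.2.2 A * τ)⁻¹ ^ 3)

theorem uk_Rr {c₁ b B w : ℝ} (hc : 0 < c₁) (hb : 1 ≤ b) (hB : 1 ≤ B) (hw : 0 ≤ w)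
    (hd : ∀ P ∈ PS c₁ b, ∀ A ∈ OM B 1, ∀ τ, |τ| ≤ w → 1 / 2 ≤ 1 + xA P.2.1 P.2.2 A * τ) : UK (PS c₁ b) B w Rr := by
  have u1 : UK (PS c₁ b) B w (fun _ A _ => A.1) := UK.c1 hB
  have ut : UK (PS c₁ b) B w (fun _ _ τ => τ) := UK.idn hw
  have uy : UK (PS c₁ b) B w (fun P A _ => yA P.2.2 A) := uk_y hc hb hB
  have ux : UK (PS c₁ b) B w (fun P A _ => xA P.2.1 P.2.2 A) := uk_x hc hb hB
  have ub : UK (PS c₁ b) B w (fun P _ _ => P.2.1) := UK.prm _ b fun P hP => hP.2.2.1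
  have uk : UK (PS c₁ b) B w (fun P _ _ => P.2.2) :=
    UK.prm _ b fun P hP => by
      obtain ⟨-, -, -, h4, h5⟩ := hP
      rw [abs_of_nonneg (hc.le.trans h4)]
      exact h5
  have ui : UK (PS c₁ b) B w (fun P A τ => (1 + xA P.2.1 P.2.2 A * τ)⁻¹) :=
    UK.inv (c := 1 / 2) ((UK.cst 1).add (ux.mul ut)) (by norm_num) hd
  have a1 := (UK.cst (S := PS c₁ b) (B := B) (w := w) (-1)).mul ((ux.mul (ux.mul ux)).mul ui)
  have a2 := ((ub.mul uy).mul (((UK.cst (S := PS c₁ b) (B := B) (w := w) 3).mul (ux.mul ux)).add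
    ((UK.cst 2).mul ((ux.mul (ux.mul ux)).mul ut)))).mul (ui.mul ui)
  have a3 := ((((ub.mul ub).add ((UK.cst (-1)).mul uk)).mul (uy.mul uy)).mul
    ((((UK.cst (S := PS c₁ b) (B := B) (w := w) 3).mul ux).add ((UK.cst 3).mul ((ux.mul ux).mul ut))).add
      ((ux.mul (ux.mul ux)).mul (ut.mul ut)))).mul (ui.mul (ui.mul ui))
  refine (u1.mul ((a1.add a2).add ((UK.cst (-1)).mul a3))).congr fun P A τ => ?_
  unfold Rr
  ring

section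

variable {c₁ b B X : ℝ} {h : ℝ × ℝ → ℝ} {A : R3} {θ τ : ℝ}

/-- the algebraic identity -/
theorem alg36 {T q x y β κ τ i p0 p1 A1 A2 A3 : ℝ} (hi : i * (1 + x * τ) = 1) (e1 : A1 = T * q * y ^ 2 / 2)
    (e2 : A2 = A1 * (-x + β * y)) (e3 : A3 = A1 * ((x - β * y) ^ 2 - κ * y ^ 2)) :
    T * (1 + x * τ) * (p0 + p1 * (y * τ * i) + q / 2 * (y * τ * i) ^ 2 + 3 * q * β / 6 * (y * τ * i) ^ 3 +
      12 * q * (β ^ 2 - κ) / 24 * (y * τ * i) ^ 4) -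
      (T * p0 + T * (x * p0 + y * p1) * τ + A1 * τ ^ 2 + A2 * τ ^ 3 + A3 * τ ^ 4) =
    τ ^ 5 * (A1 * (-(x ^ 3 * i) + β * y * (3 * x ^ 2 + 2 * x ^ 3 * τ) * i ^ 2 -
      (β ^ 2 - κ) * y ^ 2 * (3 * x + 3 * x ^ 2 * τ + x ^ 3 * τ ^ 2) * i ^ 3)) := by
  have hi2 : i ^ 2 * (1 + x * τ) = i := by rw [sq, mul_assoc, hi, mul_one]
  have hi3 : i ^ 3 * (1 + x * τ) = i ^ 2 := by rw [show i ^ 3 = i ^ 2 * i by ring, mul_assoc, hi, mul_one]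
  have hi4 : i ^ 4 * (1 + x * τ) = i ^ 3 := by rw [show i ^ 4 = i ^ 3 * i by ring, mul_assoc, hi, mul_one]
  have s1 : T * (1 + x * τ) * (p0 + p1 * (y * τ * i) + q / 2 * (y * τ * i) ^ 2 + 3 * q * β / 6 * (y * τ * i) ^ 3 +
      12 * q * (β ^ 2 - κ) / 24 * (y * τ * i) ^ 4) = T * (1 + x * τ) * p0 + T * y * p1 * τ +
      A1 * (τ ^ 2 * i + β * y * τ ^ 3 * i ^ 2 + (β ^ 2 - κ) * y ^ 2 * τ ^ 4 * i ^ 3) := by
    rw [e1]
    linear_combination (T * p1 * y * τ) * hi + (T * q / 2 * y ^ 2 * τ ^ 2) * hi2 +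
      (T * q * β / 2 * y ^ 3 * τ ^ 3) * hi3 + (T * q * (β ^ 2 - κ) / 2 * y ^ 4 * τ ^ 4) * hi4
  rw [s1, e2, e3]
  linear_combination (A1 * (τ ^ 2 * (1 - x * τ + (x * τ) ^ 2) +
    β * y * τ ^ 3 * (1 - 2 * (x * τ)) * (i * (1 + x * τ) + 1) +
    (β ^ 2 - κ) * y ^ 2 * τ ^ 4 * (i ^ 2 * (1 + x * τ) ^ 2 + i * (1 + x * τ) + 1))) * hi

theorem TA_eq {q κ : ℝ} (hq : q ≠ 0) (hy : yA κ A ≠ 0) : A.1 = TA q κ A * q * yA κ A ^ 2 / 2 := by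
  unfold TA
  field_simp

theorem xA_eq {β κ : ℝ} (h1 : A.1 ≠ 0) : A.2.1 = A.1 * (-xA β κ A + β * yA κ A) := by
  unfold xA
  field_simp
  ring

theorem A3_eq {β κ : ℝ} (h1 : A.1 ≠ 0) (hκ : κ ≠ 0) (h2 : 0 ≤ (A.2.1 ^ 2 - A.2.2 * A.1) / (κ * A.1 ^ 2)) :
    A.2.2 = A.1 * ((xA β κ A - β * yA κ A) ^ 2 - κ * yA κ A ^ 2) := by
  have e1 : yA κ A ^ 2 = (A.2.1 ^ 2 - A.2.2 * A.1) / (κ * A.1 ^ 2) := by
    unfold yA
    rw [Real.sq_sqrt h2]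
  have e2 : xA β κ A - β * yA κ A = -(A.2.1 / A.1) := by
    unfold xA
    ring
  rw [e2, e1]
  field_simp
  ring

theorem hf_eq (hh : Hom c₁ b h) {x y T : ℝ} (hT : 0 < T) (hx : 0 < 1 + x * τ) :
    hf h (fr θ y T x) τ = T * (1 + x * τ) * sl h θ (y * τ / (1 + x * τ)) := by
  have e := hh.hom (T * (1 + x * τ)) (cos θ - y * τ / (1 + x * τ) * sin θ, sin θ + y * τ / (1 + x * τ) * cos θ)
    (mul_pos hT hx)
  unfold sl
  rw [← e]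
  unfold hf fr
  congr 1
  have n : 1 + x * τ ≠ 0 := hx.ne'
  obtain ⟨s, hs⟩ : ∃ s, s = y * τ / (1 + x * τ) := ⟨_, rfl⟩
  have e2 : s * (1 + x * τ) = y * τ := by rw [hs]; exact div_mul_cancel₀ _ n
  rw [← hs]
  ext
  · simp only
    linear_combination (T * sin θ) * e2
  · simp only
    linear_combination (-(T * cos θ)) * e2

theorem er_eq36 (hc : 0 < c₁) (hb : 1 ≤ b) (hB : 1 ≤ B) (hh : Hom c₁ b h) {P : ℝ × ℝ × ℝ}
    (hP : P = (p2 h θ, be h θ, ka h θ)) (hPS : ∃ b' : ℝ, 1 ≤ b' ∧ P ∈ PS c₁ b') (hA : A ∈ OM B 1)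
    (hd : 0 < 1 + xA P.2.1 P.2.2 A * τ) :
    er h θ A τ = τ ^ 5 * Rr P A τ + TA P.1 P.2.2 A * (1 + xA P.2.1 P.2.2 A * τ) *
      Rm (sl h θ) (yA P.2.2 A * τ / (1 + xA P.2.1 P.2.2 A * τ)) := by
  obtain ⟨b', hb', hPS⟩ := hPS
  have h1 := OM_pos hB one_pos hA
  have hy := yA_lo hc hb' hB hPS.2.2.2.1 hPS.2.2.2.2 hA
  have hy2 := y2_lo hc hb' hB hPS.2.2.2.1 hPS.2.2.2.2 hA
  have hyp : 0 < yA P.2.2 A ^ 2 := lt_of_lt_of_le (by positivity) hy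
  have hy0 : yA P.2.2 A ≠ 0 := fun e => by rw [e] at hyp; norm_num at hyp
  have hq : 0 < P.1 := hc.trans_le hPS.1
  have hk : 0 < P.2.2 := hc.trans_le hPS.2.2.2.1
  have hT : 0 < TA P.1 P.2.2 A := by
    unfold TA
    positivity
  have e1 := TA_eq (A := A) hq.ne' hy0
  have e2 := xA_eq (A := A) (β := P.2.1) (κ := P.2.2) h1.ne'
  have e3 := A3_eq (A := A) (β := P.2.1) (κ := P.2.2) h1.ne' hk.ne' (le_trans (by positivity) hy2)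
  have q2 : p2 h θ = P.1 := by rw [hP]
  have q3 : be h θ = P.2.1 := by rw [hP]
  have q4 : ka h θ = P.2.2 := by rw [hP]
  have r3 : deriv (deriv (deriv (sl h θ))) 0 = 3 * P.1 * P.2.1 := by
    have : P.2.1 = p3 h θ / (3 * P.1) := by rw [← q3, ← q2]; rfl
    rw [this]
    unfold p3
    field_simp
  have r4 : deriv (deriv (deriv (deriv (sl h θ)))) 0 = 12 * P.1 * (P.2.1 ^ 2 - P.2.2) := by
    have : P.2.2 = P.2.1 ^ 2 - p4 h θ / (12 * P.1) := by rw [← q4, ← q3, ← q2]; rfl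
    rw [this]
    unfold p4
    field_simp
    ring
  have r2 : deriv (deriv (sl h θ)) 0 = P.1 := q2
  unfold er fA
  rw [q2, q3, q4, hf_eq hh hT hd]
  have hR : sl h θ (yA P.2.2 A * τ / (1 + xA P.2.1 P.2.2 A * τ)) =
      Rm (sl h θ) (yA P.2.2 A * τ / (1 + xA P.2.1 P.2.2 A * τ)) +
      (sl h θ 0 + deriv (sl h θ) 0 * (yA P.2.2 A * τ * (1 + xA P.2.1 P.2.2 A * τ)⁻¹) +
        P.1 / 2 * (yA P.2.2 A * τ * (1 + xA P.2.1 P.2.2 A * τ)⁻¹) ^ 2 +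
        3 * P.1 * P.2.1 / 6 * (yA P.2.2 A * τ * (1 + xA P.2.1 P.2.2 A * τ)⁻¹) ^ 3 +
        12 * P.1 * (P.2.1 ^ 2 - P.2.2) / 24 * (yA P.2.2 A * τ * (1 + xA P.2.1 P.2.2 A * τ)⁻¹) ^ 4) := by
    unfold Rm
    rw [r2, r3, r4, ← div_eq_mul_inv]
    ring
  have al := alg36 (T := TA P.1 P.2.2 A) (q := P.1) (x := xA P.2.1 P.2.2 A) (y := yA P.2.2 A) (β := P.2.1)
    (κ := P.2.2) (τ := τ) (i := (1 + xA P.2.1 P.2.2 A * τ)⁻¹) (p0 := sl h θ 0) (p1 := deriv (sl h θ) 0)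
    (inv_mul_cancel₀ hd.ne') e1 e2 e3
  rw [hR, mul_add, add_sub_assoc, al]
  unfold Rr
  ring

theorem er_scl36 (hh : Hom c₁ b h) (hX : 0 < X) : er h θ A τ = X * er h θ (scl X A) τ := by
  have e1 : ∀ κ, yA κ (scl X A) = yA κ A := by
    intro κ
    unfold yA scl
    congr 1
    by_cases h0 : A.1 = 0
    · rw [h0]; simp
    by_cases hk : κ = 0
    · rw [hk]; simp
    field_simp
  have e2 : ∀ β κ, xA β κ (scl X A) = xA β κ A := by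
    intro β κ
    unfold xA
    rw [e1]
    unfold scl
    by_cases h0 : A.1 = 0
    · rw [h0]; simp
    field_simp
  have e3 : ∀ q κ, TA q κ A = X * TA q κ (scl X A) := by
    intro q κ
    unfold TA
    rw [e1]
    unfold scl
    field_simp
  have e4 : hf h (fA h θ A) τ = X * hf h (fA h θ (scl X A)) τ := by
    unfold hf
    rw [← hh.hom X _ hX]
    congr 1
    unfold fA fr
    rw [e1, e2, e3]
    ext
    · simp only
      ring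
    · simp only
      ring
  have f1 : X * (scl X A).1 = A.1 := by unfold scl; field_simp
  have f2 : X * (scl X A).2.1 = A.2.1 := by unfold scl; field_simp
  have f3 : X * (scl X A).2.2 = A.2.2 := by unfold scl; field_simp
  unfold er
  rw [e4, e1, e2, e3]
  linear_combination τ ^ 2 * f1 + τ ^ 3 * f2 + τ ^ 4 * f3

end

private theorem pow5_lip {w τ τ' : ℝ} (h : |τ| ≤ w) (h' : |τ'| ≤ w) :
    |τ ^ 5 - τ' ^ 5| ≤ 5 * w ^ 4 * |τ - τ'| := by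
  have hw : 0 ≤ w := (abs_nonneg _).trans h
  have e : τ ^ 5 - τ' ^ 5 = (τ - τ') * (τ ^ 4 + τ ^ 3 * τ' + τ ^ 2 * τ' ^ 2 + τ * τ' ^ 3 + τ' ^ 4) := by
    ring
  have p : ∀ (i j : ℕ), |τ ^ i * τ' ^ j| ≤ w ^ i * w ^ j := by
    intro i j
    rw [abs_mul, abs_pow, abs_pow]
    exact mul_le_mul (pow_le_pow_left₀ (abs_nonneg _) h i) (pow_le_pow_left₀ (abs_nonneg _) h' j)
      (by positivity) (by positivity)
  have q : |τ ^ 4 + τ ^ 3 * τ' + τ ^ 2 * τ' ^ 2 + τ * τ' ^ 3 + τ' ^ 4| ≤ 5 * w ^ 4 := by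
    have a0 := abs_le.1 (p 4 0)
    have a1 := abs_le.1 (p 3 1)
    have a2 := abs_le.1 (p 2 2)
    have a3 := abs_le.1 (p 1 3)
    have a4 := abs_le.1 (p 0 4)
    simp only [pow_zero, mul_one, one_mul, pow_one] at a0 a1 a2 a3 a4
    rw [abs_le]
    constructor <;> nlinarith
  rw [e, abs_mul]
  have := mul_le_mul_of_nonneg_left q (abs_nonneg (τ - τ'))
  linarith

/-- the parameters of a phase of the class -/
theorem prm_mem {c₁ B₀ : ℝ} (hc : 0 < c₁) (hB₀ : 1 ≤ B₀) : ∃ b : ℝ, 1 ≤ b ∧ ∀ h : ℝ × ℝ → ℝ, HA c₁ B₀ h → ∀ θ : ℝ,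
    (p2 h θ, be h θ, ka h θ) ∈ PS c₁ b := by
  refine ⟨1 + B₀ + B₀ / (3 * c₁) + (B₀ / (3 * c₁)) ^ 2 + B₀ / (12 * c₁), ?_, ?_⟩
  · have : 0 ≤ B₀ / (3 * c₁) := by positivity
    have : 0 ≤ B₀ / (12 * c₁) := by positivity
    have : 0 ≤ (B₀ / (3 * c₁)) ^ 2 := by positivity
    linarith
  intro h hh θ
  have h0 : |(0 : ℝ)| ≤ 1 := by simp
  have cv := hh.hom.cv θ
  have l2 : c₁ ≤ p2 h θ := cv.lo 0 h0
  have u2 : p2 h θ ≤ B₀ := (le_abs_self _).trans (cv.d2 0 h0)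
  have u3 : |p3 h θ| ≤ B₀ := cv.d3 0 h0
  have u4 : |p4 h θ| ≤ B₀ := cv.d4 0 h0
  have q0 : 0 < p2 h θ := hc.trans_le l2
  have b1 : |be h θ| ≤ B₀ / (3 * c₁) := by
    unfold be
    rw [abs_div, abs_of_pos (by positivity : 0 < 3 * p2 h θ)]
    exact div_le_div₀ (by linarith) u3 (by positivity) (by linarith)
  have b2 : |p4 h θ / (12 * p2 h θ)| ≤ B₀ / (12 * c₁) := by
    rw [abs_div, abs_of_pos (by positivity : 0 < 12 * p2 h θ)]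
    exact div_le_div₀ (by linarith) u4 (by positivity) (by linarith)
  have b3 : be h θ ^ 2 ≤ (B₀ / (3 * c₁)) ^ 2 := by
    rw [← sq_abs]
    exact pow_le_pow_left₀ (abs_nonneg _) b1 2
  have z1 : 0 ≤ B₀ / (3 * c₁) := by positivity
  have z2 : 0 ≤ B₀ / (12 * c₁) := by positivity
  have z3 : 0 ≤ (B₀ / (3 * c₁)) ^ 2 := by positivity
  refine ⟨l2, ?_, ?_, hh.ka θ, ?_⟩
  · change p2 h θ ≤ _
    linarith
  · change |be h θ| ≤ _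
    linarith
  · change ka h θ ≤ _
    unfold ka
    have := (abs_le.1 b2).1
    linarith

/-- the remainder is Lipschitz in `A` with the factor `|τ|⁵` -/
theorem er_lip {c₁ B₀ B : ℝ} (hc : 0 < c₁) (hB₀ : 1 ≤ B₀) (hB : 1 ≤ B) : ∃ C w₀ : ℝ, 1 ≤ C ∧ 0 < w₀ ∧ w₀ ≤ 1 ∧
    ∀ h : ℝ × ℝ → ℝ, HA c₁ B₀ h → ∀ (θ X δ : ℝ) (A A' : R3), 0 < X → A ∈ OM B X → A' ∈ OM B X →
    |A.1 - A'.1| ≤ δ * X → |A.2.1 - A'.2.1| ≤ δ * X → |A.2.2 - A'.2.2| ≤ δ * X →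
    (∀ τ : ℝ, |τ| ≤ w₀ → |er h θ A τ - er h θ A' τ| ≤ C * δ * X * |τ| ^ 5) ∧
    ∀ τ τ' w : ℝ, |τ| ≤ w → |τ'| ≤ w → w ≤ w₀ →
      |(er h θ A τ - er h θ A' τ) - (er h θ A τ' - er h θ A' τ')| ≤ C * δ * X * w ^ 4 * |τ - τ'| := by
  obtain ⟨b, hb, hPm⟩ := prm_mem hc hB₀
  obtain ⟨K1, hK1, hx⟩ := uk_x (w := 0) hc hb hB
  obtain ⟨K2, hK2, hy⟩ := uk_y (w := 0) hc hb hB
  obtain ⟨K3, hK3, hT⟩ := uk_T (w := 0) hc hb hB
  obtain ⟨K, hK⟩ : ∃ K, K = K1 + K2 + K3 := ⟨_, rfl⟩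
  have hK4 : 1 ≤ K := by rw [hK]; linarith
  have hK0 : 0 < K := by linarith
  obtain ⟨w0, hw0⟩ : ∃ w0, w0 = 1 / (2 * K) := ⟨_, rfl⟩
  have hwp : 0 < w0 := by rw [hw0]; positivity
  have hwK : w0 * (2 * K) = 1 := by rw [hw0]; field_simp
  have hw1 : w0 ≤ 1 := by nlinarith
  have z0 : |(0 : ℝ)| ≤ 0 := by simp
  have zz : ∀ a : ℝ, |a - a| ≤ 0 := fun a => by simp
  have bx : ∀ P ∈ PS c₁ b, ∀ A ∈ OM B 1, |xA P.2.1 P.2.2 A| ≤ K * 1 := by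
    intro P hP A hA
    have := (hx P hP 0 A A le_rfl hA hA (zz _) (zz _) (zz _)).bf 0 z0
    linarith
  have den : ∀ P ∈ PS c₁ b, ∀ A ∈ OM B 1, ∀ τ, |τ| ≤ w0 → 1 / 2 ≤ 1 + xA P.2.1 P.2.2 A * τ := by
    intro P hP A hA τ hτ
    have h1 : |xA P.2.1 P.2.2 A * τ| ≤ 1 / 2 := by
      rw [abs_mul]
      calc |xA P.2.1 P.2.2 A| * |τ| ≤ (K * 1) * w0 := mul_le_mul (bx P hP A hA) hτ (abs_nonneg _) (by positivity)
        _ = 1 / 2 := by linarith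
    linarith [(abs_le.1 h1).1]
  obtain ⟨L, hL, hR⟩ := uk_Rr (w := w0) hc hb hB hwp.le den
  obtain ⟨M, hM, hE⟩ := rem_lip (K := K) (B := B₀) hK4 (by linarith)
  refine ⟨6 * L + M, w0, by linarith, hwp, hw1, ?_⟩
  intro h hh θ X δ A A' hX hA hA' d1 d2 d3
  have hδ : 0 ≤ δ := by
    have := (abs_nonneg _).trans d1
    exact nonneg_of_mul_nonneg_left this hX
  obtain ⟨P, hP⟩ : ∃ P : ℝ × ℝ × ℝ, P = (p2 h θ, be h θ, ka h θ) := ⟨_, rfl⟩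
  have hPS : P ∈ PS c₁ b := by rw [hP]; exact hPm h hh θ
  have m := scl_mem hX hA
  have m' := scl_mem hX hA'
  have dd : ∀ {a b : ℝ}, |a - b| ≤ δ * X → |a / X - b / X| ≤ δ := by
    intro a b h
    rw [← sub_div, abs_div, abs_of_pos hX, div_le_iff₀ hX]
    exact h
  have G := hR P hPS δ (scl X A) (scl X A') hδ m m' (dd d1) (dd d2) (dd d3)
  have gx := hx P hPS δ (scl X A) (scl X A') hδ m m' (dd d1) (dd d2) (dd d3)
  have gy := hy P hPS δ (scl X A) (scl X A') hδ m m' (dd d1) (dd d2) (dd d3)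
  have gT := hT P hPS δ (scl X A) (scl X A') hδ m m' (dd d1) (dd d2) (dd d3)
  have px : Pd K 1 δ (xA P.2.1 P.2.2 (scl X A)) (xA P.2.1 P.2.2 (scl X A')) := by
    refine ⟨by linarith [gx.bf 0 z0], by linarith [gx.bg 0 z0], (gx.d 0 z0).trans ?_⟩
    rw [hK]
    nlinarith
  have py : Pd K 1 δ (yA P.2.2 (scl X A)) (yA P.2.2 (scl X A')) := by
    refine ⟨by linarith [gy.bf 0 z0], by linarith [gy.bg 0 z0], (gy.d 0 z0).trans ?_⟩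
    rw [hK]
    nlinarith
  have pT : Pd K 1 δ (TA P.1 P.2.2 (scl X A)) (TA P.1 P.2.2 (scl X A')) := by
    refine ⟨by linarith [gT.bf 0 z0], by linarith [gT.bg 0 z0], (gT.d 0 z0).trans ?_⟩
    rw [hK]
    nlinarith
  obtain ⟨E1, E2⟩ := hE (sl h θ) δ _ _ _ _ _ _ (hh.sm θ) (hh.d5 θ) hδ pT px py
  obtain ⟨V, hV⟩ : ∃ V : ℝ → ℝ, V = fun τ => TA P.1 P.2.2 (scl X A) * (1 + xA P.2.1 P.2.2 (scl X A) * τ) *
      Rm (sl h θ) (yA P.2.2 (scl X A) * τ / (1 + xA P.2.1 P.2.2 (scl X A) * τ)) -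
      TA P.1 P.2.2 (scl X A') * (1 + xA P.2.1 P.2.2 (scl X A') * τ) *
      Rm (sl h θ) (yA P.2.2 (scl X A') * τ / (1 + xA P.2.1 P.2.2 (scl X A') * τ)) := ⟨_, rfl⟩
  have F1 : ∀ τ, |τ| ≤ w0 → |V τ| ≤ M * δ * |τ| ^ 5 := by
    rw [hV, hw0]
    exact E1
  have F2 : ∀ τ τ' w, |τ| ≤ w → |τ'| ≤ w → w ≤ w0 → |V τ - V τ'| ≤ M * δ * w ^ 4 * |τ - τ'| := by
    rw [hV, hw0]
    exact E2
  have E : ∀ τ, |τ| ≤ w0 → er h θ A τ - er h θ A' τ =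
      X * (τ ^ 5 * (Rr P (scl X A) τ - Rr P (scl X A') τ) + V τ) := by
    intro τ hτ
    have k1 := den P hPS _ m τ hτ
    have k2 := den P hPS _ m' τ hτ
    rw [er_scl36 (A := A) hh.hom hX, er_scl36 (A := A') hh.hom hX,
      er_eq36 hc hB₀ hB hh.hom hP ⟨b, hb, hPS⟩ m (by linarith),
      er_eq36 hc hB₀ hB hh.hom hP ⟨b, hb, hPS⟩ m' (by linarith), hV]
    ring
  have hLδ : 0 ≤ L * δ := mul_nonneg (by linarith) hδ
  constructor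
  · intro τ hτ
    rw [E τ hτ, abs_mul, abs_of_pos hX]
    have e1 : |τ ^ 5 * (Rr P (scl X A) τ - Rr P (scl X A') τ)| ≤ L * δ * |τ| ^ 5 := by
      rw [abs_mul, abs_pow]
      have := mul_le_mul_of_nonneg_left (G.d τ hτ) (show 0 ≤ |τ| ^ 5 by positivity)
      linarith
    have e2 := (abs_add_le (τ ^ 5 * (Rr P (scl X A) τ - Rr P (scl X A') τ)) (V τ)).trans
      (add_le_add e1 (F1 τ hτ))
    have e4 := mul_le_mul_of_nonneg_left e2 hX.le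
    have e5 : 0 ≤ X * (|τ| ^ 5 * (L * δ)) := by positivity
    nlinarith
  · intro τ τ' w h1 h2 h3
    have hw : 0 ≤ w := (abs_nonneg _).trans h1
    have t1 := h1.trans h3
    have t2 := h2.trans h3
    rw [E τ t1, E τ' t2]
    have e0 : X * (τ ^ 5 * (Rr P (scl X A) τ - Rr P (scl X A') τ) + V τ) -
        X * (τ' ^ 5 * (Rr P (scl X A) τ' - Rr P (scl X A') τ') + V τ') =
        X * ((τ ^ 5 - τ' ^ 5) * (Rr P (scl X A) τ - Rr P (scl X A') τ) +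
          τ' ^ 5 * ((Rr P (scl X A) τ - Rr P (scl X A') τ) - (Rr P (scl X A) τ' - Rr P (scl X A') τ')) +
          (V τ - V τ')) := by
      ring
    rw [e0, abs_mul, abs_of_pos hX]
    have a1 : |(τ ^ 5 - τ' ^ 5) * (Rr P (scl X A) τ - Rr P (scl X A') τ)| ≤
        5 * w ^ 4 * |τ - τ'| * (L * δ) := by
      rw [abs_mul]
      exact mul_le_mul (pow5_lip h1 h2) (G.d τ t1) (abs_nonneg _) (by positivity)
    have a2 : |τ' ^ 5 * ((Rr P (scl X A) τ - Rr P (scl X A') τ) - (Rr P (scl X A) τ' - Rr P (scl X A') τ'))|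
        ≤ w ^ 4 * (L * δ * |τ - τ'|) := by
      rw [abs_mul, abs_pow]
      refine mul_le_mul ?_ (G.m τ τ' t1 t2) (abs_nonneg _) (by positivity)
      calc |τ'| ^ 5 = |τ'| ^ 4 * |τ'| := by ring
        _ ≤ w ^ 4 * 1 := mul_le_mul (pow_le_pow_left₀ (abs_nonneg _) h2 4)
            (t2.trans hw1) (abs_nonneg _) (by positivity)
        _ = w ^ 4 := mul_one _
    have a3 := (abs_add_le _ _).trans (add_le_add ((abs_add_le ((τ ^ 5 - τ' ^ 5) * (Rr P (scl X A) τ - Rr P (scl X A') τ))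
      (τ' ^ 5 * ((Rr P (scl X A) τ - Rr P (scl X A') τ) - (Rr P (scl X A) τ' - Rr P (scl X A') τ')))).trans
      (add_le_add a1 a2)) (F2 τ τ' w h1 h2 h3))
    have a4 := mul_le_mul_of_nonneg_left a3 hX.le
    refine a4.trans (le_of_eq ?_)
    ring

end Pool.Agent.Helper3.AC
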