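import Pool.Agent.Helper3.AC.Defs

/-!
# AC-E, part 1: the remainder `R` after the Taylor polynomial of degree four of a slice

`|R s| ≤ B |s|⁵`, `|R' s| ≤ B |s|⁴`, `|R'' s| ≤ B |s|³` on `|s| ≤ 1`; the function `T (1 + x τ) R (y τ / (1 + x τ))`
is Lipschitz in `(T, x, y)` with the factor `|τ|⁵`, and its difference has the Lipschitz constant `w⁴` on `|τ| ≤ w`.
-/

open Real Set

set_option autoImplicit false

namespace Pool.Agent.Helper3.AC

/-- the mean value inequality on a symmetric interval -/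
theorem mv36 {f g : ℝ → ℝ} {r C : ℝ} (hf : ∀ t, |t| ≤ r → HasDerivAt f (g t) t)
    (hb : ∀ t, |t| ≤ r → |g t| ≤ C) {a b : ℝ} (ha : |a| ≤ r) (hb' : |b| ≤ r) :
    |f a - f b| ≤ C * |a - b| := by
  have hs : Convex ℝ (Icc (-r) r) := convex_Icc _ _
  have := hs.norm_image_sub_le_of_norm_hasDerivWithin_le (f := f) (f' := g) (C := C) (x := b) (y := a)
    (fun t ht => (hf t (abs_le.2 ht)).hasDerivWithinAt)
    (fun t ht => by rw [Real.norm_eq_abs]; exact hb t (abs_le.2 ht)) (abs_le.1 hb') (abs_le.1 ha)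
  simpa [Real.norm_eq_abs] using this

/-- one step of the Taylor remainder -/
theorem tay_step {f g : ℝ → ℝ} {B : ℝ} {k : ℕ} (hB : 0 ≤ B) (h0 : f 0 = 0)
    (hf : ∀ t, |t| ≤ 1 → HasDerivAt f (g t) t) (hg : ∀ t, |t| ≤ 1 → |g t| ≤ B * |t| ^ k)
    {s : ℝ} (hs : |s| ≤ 1) : |f s| ≤ B * |s| ^ (k + 1) := by
  have h := mv36 (f := f) (g := g) (r := |s|) (C := B * |s| ^ k)
    (fun t ht => hf t (ht.trans hs)) (fun t ht => (hg t (ht.trans hs)).trans
      (mul_le_mul_of_nonneg_left (pow_le_pow_left₀ (abs_nonneg _) ht k) hB))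
    (a := s) (b := 0) le_rfl (by simp)
  rw [h0, sub_zero, sub_zero] at h
  rw [pow_succ]
  linarith

/-- the remainder of a function after its Taylor polynomial of degree four at `0` -/
noncomputable def Rm (p : ℝ → ℝ) (s : ℝ) : ℝ :=
  p s - (p 0 + deriv p 0 * s + deriv (deriv p) 0 / 2 * s ^ 2 + deriv (deriv (deriv p)) 0 / 6 * s ^ 3 +
    deriv (deriv (deriv (deriv p))) 0 / 24 * s ^ 4)

/-- the derivative of `Rm` -/
noncomputable def Rm1 (p : ℝ → ℝ) (s : ℝ) : ℝ :=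
  deriv p s - (deriv p 0 + deriv (deriv p) 0 * s + deriv (deriv (deriv p)) 0 / 2 * s ^ 2 +
    deriv (deriv (deriv (deriv p))) 0 / 6 * s ^ 3)

/-- the second derivative of `Rm` -/
noncomputable def Rm2 (p : ℝ → ℝ) (s : ℝ) : ℝ :=
  deriv (deriv p) s - (deriv (deriv p) 0 + deriv (deriv (deriv p)) 0 * s +
    deriv (deriv (deriv (deriv p))) 0 / 2 * s ^ 2)

section

variable {p : ℝ → ℝ} {B : ℝ}

theorem hd36 (h : ContDiff ℝ 5 p) :
    (∀ s, HasDerivAt p (deriv p s) s) ∧ (∀ s, HasDerivAt (deriv p) (deriv (deriv p) s) s) ∧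
    (∀ s, HasDerivAt (deriv (deriv p)) (deriv (deriv (deriv p)) s) s) ∧
    (∀ s, HasDerivAt (deriv (deriv (deriv p))) (deriv (deriv (deriv (deriv p))) s) s) ∧
    ∀ s, HasDerivAt (deriv (deriv (deriv (deriv p)))) (deriv (deriv (deriv (deriv (deriv p)))) s) s := by
  have h1 : ContDiff ℝ 4 (deriv p) := (contDiff_succ_iff_deriv (n := 4)).1 h |>.2.2
  have h2 : ContDiff ℝ 3 (deriv (deriv p)) := (contDiff_succ_iff_deriv (n := 3)).1 h1 |>.2.2
  have h3 : ContDiff ℝ 2 (deriv (deriv (deriv p))) := (contDiff_succ_iff_deriv (n := 2)).1 h2 |>.2.2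
  have h4 : ContDiff ℝ 1 (deriv (deriv (deriv (deriv p)))) :=
    (contDiff_succ_iff_deriv (n := 1)).1 h3 |>.2.2
  refine ⟨fun s => ?_, fun s => ?_, fun s => ?_, fun s => ?_, fun s => ?_⟩
  · exact (h.differentiable (by norm_num) s).hasDerivAt
  · exact (h1.differentiable (by norm_num) s).hasDerivAt
  · exact (h2.differentiable (by norm_num) s).hasDerivAt
  · exact (h3.differentiable (by norm_num) s).hasDerivAt
  · exact (h4.differentiable (by norm_num) s).hasDerivAt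

theorem Rm_deriv (h : ContDiff ℝ 5 p) (s : ℝ) : HasDerivAt (Rm p) (Rm1 p s) s := by
  obtain ⟨h0, -⟩ := hd36 h
  unfold Rm Rm1
  have e := (((((hasDerivAt_const s (p 0)).add ((hasDerivAt_id s).const_mul (deriv p 0))).add
    ((hasDerivAt_pow 2 s).const_mul (deriv (deriv p) 0 / 2))).add
    ((hasDerivAt_pow 3 s).const_mul (deriv (deriv (deriv p)) 0 / 6))).add
    ((hasDerivAt_pow 4 s).const_mul (deriv (deriv (deriv (deriv p))) 0 / 24)))
  refine ((h0 s).sub e).congr_deriv ?_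
  push_cast
  ring

theorem Rm1_deriv (h : ContDiff ℝ 5 p) (s : ℝ) : HasDerivAt (Rm1 p) (Rm2 p s) s := by
  obtain ⟨-, h1, -⟩ := hd36 h
  unfold Rm1 Rm2
  have e := ((((hasDerivAt_const s (deriv p 0)).add
    ((hasDerivAt_id s).const_mul (deriv (deriv p) 0))).add
    ((hasDerivAt_pow 2 s).const_mul (deriv (deriv (deriv p)) 0 / 2))).add
    ((hasDerivAt_pow 3 s).const_mul (deriv (deriv (deriv (deriv p))) 0 / 6)))
  refine ((h1 s).sub e).congr_deriv ?_
  push_cast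
  ring

theorem Rm_bd (hB : 0 ≤ B) (h : ContDiff ℝ 5 p)
    (h5 : ∀ t, |t| ≤ 1 → |deriv (deriv (deriv (deriv (deriv p)))) t| ≤ B) {s : ℝ} (hs : |s| ≤ 1) :
    |Rm p s| ≤ B * |s| ^ 5 ∧ |Rm1 p s| ≤ B * |s| ^ 4 ∧ |Rm2 p s| ≤ B * |s| ^ 3 := by
  obtain ⟨h0, h1, h2, h3, h4⟩ := hd36 h
  set a4 := deriv (deriv (deriv (deriv p))) 0 with ha4
  set a3 := deriv (deriv (deriv p)) 0 with ha3
  have b4 : ∀ t, |t| ≤ 1 → |deriv (deriv (deriv (deriv p))) t - a4| ≤ B * |t| ^ 1 := by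
    intro t ht
    have := tay_step (f := fun t => deriv (deriv (deriv (deriv p))) t - a4)
      (g := deriv (deriv (deriv (deriv (deriv p))))) (B := B) (k := 0) hB (by simp [ha4])
      (fun t _ => (h4 t).sub_const a4) (fun t ht => by simpa using h5 t ht) ht
    simpa using this
  have b3 : ∀ t, |t| ≤ 1 → |deriv (deriv (deriv p)) t - (a3 + a4 * t)| ≤ B * |t| ^ 2 := by
    intro t ht
    exact tay_step (f := fun t => deriv (deriv (deriv p)) t - (a3 + a4 * t))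
      (g := fun t => deriv (deriv (deriv (deriv p))) t - a4) (B := B) (k := 1) hB (by simp [ha3])
      (fun t _ => by
        have e := (hasDerivAt_const t a3).add ((hasDerivAt_id t).const_mul a4)
        refine ((h3 t).sub e).congr_deriv ?_
        ring) b4 ht
  have b2 : ∀ t, |t| ≤ 1 → |Rm2 p t| ≤ B * |t| ^ 3 := by
    intro t ht
    exact tay_step (f := Rm2 p)
      (g := fun t => deriv (deriv (deriv p)) t - (a3 + a4 * t)) (B := B) (k := 2) hB
      (by unfold Rm2; ring)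
      (fun t _ => by
        have e := ((hasDerivAt_const t (deriv (deriv p) 0)).add ((hasDerivAt_id t).const_mul a3)).add
          ((hasDerivAt_pow 2 t).const_mul (a4 / 2))
        unfold Rm2
        refine ((h2 t).sub e).congr_deriv ?_
        push_cast
        ring) b3 ht
  have b1 : ∀ t, |t| ≤ 1 → |Rm1 p t| ≤ B * |t| ^ 4 := by
    intro t ht
    exact tay_step (f := Rm1 p) (g := Rm2 p) (B := B) (k := 3) hB
      (by unfold Rm1; ring) (fun t _ => Rm1_deriv h t) b2 ht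
  have b0 : ∀ t, |t| ≤ 1 → |Rm p t| ≤ B * |t| ^ 5 := by
    intro t ht
    exact tay_step (f := Rm p) (g := Rm1 p) (B := B) (k := 4) hB
      (by unfold Rm; ring) (fun t _ => Rm_deriv h t) b1 ht
  exact ⟨b0 s hs, b1 s hs, b2 s hs⟩

end

/-- pairs of numbers of size `a` with difference `δ a` -/
structure Pd (K a δ f g : ℝ) : Prop where
  b : |f| ≤ K * a
  b' : |g| ≤ K * a
  d : |f - g| ≤ K * δ * a

theorem Pd.mul {K L a b δ f g f' g' : ℝ} (h : Pd K a δ f g) (h' : Pd L b δ f' g') :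
    Pd (2 * K * L) (a * b) δ (f * f') (g * g') := by
  obtain ⟨h1, h2, h3⟩ := h
  obtain ⟨k1, k2, k3⟩ := h'
  have n1 : 0 ≤ K * a := (abs_nonneg _).trans h1
  have n2 : 0 ≤ L * b := (abs_nonneg _).trans k1
  have n3 : 0 ≤ K * a * (L * b) := mul_nonneg n1 n2
  have ab : ∀ {x y u v : ℝ}, |x| ≤ u → |y| ≤ v → |x * y| ≤ u * v := by
    intro x y u v h h'
    rw [abs_mul]
    exact mul_le_mul h h' (abs_nonneg _) ((abs_nonneg _).trans h)
  refine ⟨(ab h1 k1).trans ?_, (ab h2 k2).trans ?_, ?_⟩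
  · nlinarith only [n3]
  · nlinarith only [n3]
  · rw [show f * f' - g * g' = (f - g) * f' + g * (f' - g') by ring]
    refine (abs_add_le _ _).trans ((add_le_add (ab h3 k1) (ab h2 k3)).trans (le_of_eq ?_))
    ring

theorem Pd.add {K L a δ f g f' g' : ℝ} (h : Pd K a δ f g) (h' : Pd L a δ f' g') :
    Pd (K + L) a δ (f + f') (g + g') := by
  obtain ⟨h1, h2, h3⟩ := h
  obtain ⟨k1, k2, k3⟩ := h'
  refine ⟨?_, ?_, ?_⟩
  · rw [add_mul]
    exact (abs_add_le _ _).trans (add_le_add h1 k1)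
  · rw [add_mul]
    exact (abs_add_le _ _).trans (add_le_add h2 k2)
  · rw [show f + f' - (g + g') = (f - g) + (f' - g') by ring, add_mul, add_mul]
    exact (abs_add_le _ _).trans (add_le_add h3 k3)

/-- the remainder of the phase is Lipschitz in `(T, x, y)` -/
theorem rem_lip {K B : ℝ} (hK : 1 ≤ K) (hB : 0 ≤ B) : ∃ C : ℝ, 1 ≤ C ∧ ∀ (p : ℝ → ℝ) (δ T T' x x' y y' : ℝ),
    ContDiff ℝ 5 p → (∀ t, |t| ≤ 1 → |deriv (deriv (deriv (deriv (deriv p)))) t| ≤ B) → 0 ≤ δ →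
    Pd K 1 δ T T' → Pd K 1 δ x x' → Pd K 1 δ y y' →
    (∀ τ : ℝ, |τ| ≤ 1 / (2 * K) →
      |T * (1 + x * τ) * Rm p (y * τ / (1 + x * τ)) - T' * (1 + x' * τ) * Rm p (y' * τ / (1 + x' * τ))| ≤
        C * δ * |τ| ^ 5) ∧
    ∀ τ τ' w : ℝ, |τ| ≤ w → |τ'| ≤ w → w ≤ 1 / (2 * K) →
      |(T * (1 + x * τ) * Rm p (y * τ / (1 + x * τ)) - T' * (1 + x' * τ) * Rm p (y' * τ / (1 + x' * τ))) -
        (T * (1 + x * τ') * Rm p (y * τ' / (1 + x * τ')) -
          T' * (1 + x' * τ') * Rm p (y' * τ' / (1 + x' * τ')))| ≤ C * δ * w ^ 4 * |τ - τ'| := by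
  have hK0 : 0 < K := by linarith
  obtain ⟨L, hL⟩ : ∃ L, L = 12 * K ^ 2 := ⟨_, rfl⟩
  have hLK : K ≤ L := by rw [hL]; nlinarith only [hK]
  have hL1 : 1 ≤ L := hK.trans hLK
  obtain ⟨M, hM⟩ : ∃ M, M = B * (2 * K) ^ 4 * L + B * (2 * K) ^ 3 * L + 1 := ⟨_, rfl⟩
  have hM1 : B * (2 * K) ^ 4 * L ≤ M := by rw [hM]; nlinarith only [hB, hK, hL1, show 0 ≤ B * (2 * K) ^ 3 * L by positivity]
  have hM2 : B * (2 * K) ^ 3 * L ≤ M := by rw [hM]; nlinarith only [hB, hK, hL1, show 0 ≤ B * (2 * K) ^ 4 * L by positivity]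
  have hM0 : 0 ≤ M := by rw [hM]; positivity
  obtain ⟨C, hC⟩ : ∃ C, C = 1 + 2 * K * (2 * K * M + 2 * (2 * K * M) * L) := ⟨_, rfl⟩
  have hC1 : 1 ≤ C := by rw [hC]; nlinarith only [hK, hM0, hL1, show 0 ≤ 2 * K * (2 * K * M + 2 * (2 * K * M) * L) by positivity]
  refine ⟨C, hC1, ?_⟩
  intro p δ T T' x x' y y' hp h5 hδ pT px py
  obtain ⟨w0, hw0⟩ : ∃ w0, w0 = 1 / (2 * K) := ⟨_, rfl⟩
  rw [← hw0]
  have hw1 : w0 * (2 * K) = 1 := by rw [hw0]; field_simp
  have hwp : 0 < w0 := by rw [hw0]; positivity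
  have hw2 : w0 ≤ 1 := by nlinarith only [hK, hw1]
  -- the denominators
  have den : ∀ {x τ : ℝ}, |x| ≤ K * 1 → |τ| ≤ w0 → 1 / 2 ≤ 1 + x * τ := by
    intro x τ hx hτ
    have : |x * τ| ≤ 1 / 2 := by
      rw [abs_mul]
      calc |x| * |τ| ≤ (K * 1) * w0 := mul_le_mul hx hτ (abs_nonneg _) (by positivity)
        _ = 1 / 2 := by linarith
    linarith only [this, (abs_le.1 this).1]
  have sig : ∀ {x y τ : ℝ}, |x| ≤ K * 1 → |y| ≤ K * 1 → |τ| ≤ w0 →
      |y * τ / (1 + x * τ)| ≤ 2 * K * |τ| := by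
    intro x y τ hx hy hτ
    have h1 := den hx hτ
    rw [abs_div, abs_of_pos (by linarith : 0 < 1 + x * τ), div_le_iff₀ (by linarith), abs_mul]
    have h2 : |y| * |τ| ≤ K * |τ| := mul_le_mul_of_nonneg_right (by linarith) (abs_nonneg _)
    have h3 : 0 ≤ K * |τ| := by positivity
    nlinarith only [h2, h1, h3]
  have sig1 : ∀ {x y τ : ℝ}, |x| ≤ K * 1 → |y| ≤ K * 1 → |τ| ≤ w0 → |y * τ / (1 + x * τ)| ≤ 1 := by
    intro x y τ hx hy hτ
    have := sig hx hy hτ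
    nlinarith only [hw1, hτ, this, hK]
  have pinv : ∀ {τ : ℝ}, |τ| ≤ w0 → Pd L 1 δ (1 + x * τ)⁻¹ (1 + x' * τ)⁻¹ := by
    intro τ hτ
    have h1 := den px.b hτ
    have h2 := den px.b' hτ
    have i1 : |(1 + x * τ)⁻¹| ≤ 2 := by
      rw [abs_of_pos (inv_pos.2 (by linarith)), inv_le_comm₀ (by linarith) (by norm_num)]
      linarith
    have i2 : |(1 + x' * τ)⁻¹| ≤ 2 := by
      rw [abs_of_pos (inv_pos.2 (by linarith)), inv_le_comm₀ (by linarith) (by norm_num)]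
      linarith
    have hL2 : 2 ≤ L := by rw [hL]; nlinarith only [hK]
    refine ⟨by linarith, by linarith, ?_⟩
    have n1 : 1 + x * τ ≠ 0 := by linarith
    have n2 : 1 + x' * τ ≠ 0 := by linarith
    have e : (1 + x * τ)⁻¹ - (1 + x' * τ)⁻¹ = (1 + x * τ)⁻¹ * (1 + x' * τ)⁻¹ * ((x' - x) * τ) := by
      rw [inv_sub_inv n1 n2, div_eq_mul_inv, mul_inv]
      ring
    rw [e, abs_mul, abs_mul, abs_mul]
    have d := px.d
    rw [abs_sub_comm] at d
    calc |(1 + x * τ)⁻¹| * |(1 + x' * τ)⁻¹| * (|x' - x| * |τ|) ≤ 2 * 2 * ((K * δ * 1) * 1) := by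
          refine mul_le_mul (mul_le_mul i1 i2 (abs_nonneg _) (by norm_num))
            (mul_le_mul d (hτ.trans hw2) (abs_nonneg _) (by positivity)) (by positivity) (by norm_num)
      _ ≤ L * δ * 1 := by
          rw [hL]
          have : K ≤ K ^ 2 := by nlinarith only [hK]
          nlinarith only [hL, hδ, hLK, this]
  have sd : ∀ {τ : ℝ}, |τ| ≤ w0 → |y * τ / (1 + x * τ) - y' * τ / (1 + x' * τ)| ≤ L * δ * |τ| := by
    intro τ hτ
    have h1 := den px.b hτ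
    have h2 := den px.b' hτ
    have i1 : |(1 + x * τ)⁻¹| ≤ 2 := by
      rw [abs_of_pos (inv_pos.2 (by linarith)), inv_le_comm₀ (by linarith) (by norm_num)]
      linarith
    have i2 : |(1 + x' * τ)⁻¹| ≤ 2 := by
      rw [abs_of_pos (inv_pos.2 (by linarith)), inv_le_comm₀ (by linarith) (by norm_num)]
      linarith
    have n1 : 1 + x * τ ≠ 0 := by linarith
    have n2 : 1 + x' * τ ≠ 0 := by linarith
    have e : y * τ / (1 + x * τ) - y' * τ / (1 + x' * τ) =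
        τ * ((1 + x * τ)⁻¹ * (1 + x' * τ)⁻¹) * ((y - y') + ((y - y') * x' + y' * (x' - x)) * τ) := by
      rw [div_sub_div _ _ n1 n2, div_eq_mul_inv, mul_inv]
      ring
    have dx := px.d
    rw [abs_sub_comm] at dx
    have dy := py.d
    have ab : ∀ {x y u v : ℝ}, |x| ≤ u → |y| ≤ v → |x * y| ≤ u * v := by
      intro x y u v h h'
      rw [abs_mul]
      exact mul_le_mul h h' (abs_nonneg _) ((abs_nonneg _).trans h)
    have h3 : |(y - y') + ((y - y') * x' + y' * (x' - x)) * τ| ≤ 3 * K ^ 2 * δ := by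
      have a1 := ab dy px.b'
      have a2 := ab py.b' dx
      have a3 : |(y - y') * x' + y' * (x' - x)| ≤ 2 * K ^ 2 * δ :=
        (abs_add_le _ _).trans ((add_le_add a1 a2).trans (le_of_eq (by ring)))
      have a4 := ab a3 (hτ.trans hw2)
      refine (abs_add_le _ _).trans ((add_le_add dy a4).trans ?_)
      have : K ≤ K ^ 2 := by nlinarith only [hK]
      nlinarith only [hδ, this]
    rw [e, hL]
    have h4 := ab (ab (le_refl |τ|) (ab i1 i2)) h3
    refine h4.trans (le_of_eq ?_)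
    ring
  -- values of the remainder at the two points
  have pR : ∀ {τ : ℝ}, |τ| ≤ w0 → Pd M (|τ| ^ 4) δ (Rm p (y * τ / (1 + x * τ))) (Rm p (y' * τ / (1 + x' * τ))) := by
    intro τ hτ
    have s1 := sig px.b py.b hτ
    have s2 := sig px.b' py.b' hτ
    have s3 := sig1 px.b py.b hτ
    have s4 := sig1 px.b' py.b' hτ
    have hτ1 : |τ| ≤ 1 := hτ.trans hw2
    have big : ∀ {s : ℝ}, |s| ≤ 2 * K * |τ| → |s| ≤ 1 → |Rm p s| ≤ M * |τ| ^ 4 := by
      intro s h h'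
      refine (Rm_bd hB hp h5 h').1.trans ?_
      have e1 : |s| ^ 5 ≤ |s| ^ 4 := pow_le_pow_of_le_one (abs_nonneg _) h' (by norm_num)
      have e2 : |s| ^ 4 ≤ (2 * K * |τ|) ^ 4 := pow_le_pow_left₀ (abs_nonneg _) h 4
      have e3 : B * |s| ^ 5 ≤ B * (2 * K) ^ 4 * |τ| ^ 4 := by
        have := mul_le_mul_of_nonneg_left (e1.trans e2) hB
        rw [mul_pow] at this
        linarith
      refine e3.trans (mul_le_mul_of_nonneg_right (le_trans ?_ hM1) (by positivity))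
      exact le_mul_of_one_le_right (by positivity) hL1
    refine ⟨big s1 s3, big s2 s4, ?_⟩
    obtain ⟨r, hr⟩ : ∃ r, r = min 1 (2 * K * |τ|) := ⟨_, rfl⟩
    have hr1 : r ≤ 1 := by rw [hr]; exact min_le_left _ _
    have hr2 : r ≤ 2 * K * |τ| := by rw [hr]; exact min_le_right _ _
    have m := mv36 (f := Rm p) (g := Rm1 p) (r := r) (C := B * (2 * K * |τ|) ^ 4)
      (fun t _ => Rm_deriv hp t) (fun t ht => by
        refine (Rm_bd hB hp h5 (ht.trans hr1)).2.1.trans (mul_le_mul_of_nonneg_left ?_ hB)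
        exact pow_le_pow_left₀ (abs_nonneg _) (ht.trans hr2) 4)
      (a := y * τ / (1 + x * τ)) (b := y' * τ / (1 + x' * τ)) (by rw [hr]; exact le_min s3 s1)
      (by rw [hr]; exact le_min s4 s2)
    refine m.trans ?_
    have m2 := mul_le_mul_of_nonneg_left (sd hτ) (show 0 ≤ B * (2 * K * |τ|) ^ 4 by positivity)
    refine m2.trans ?_
    have m3 : B * (2 * K * |τ|) ^ 4 * (L * δ * |τ|) = (B * (2 * K) ^ 4 * L) * (δ * |τ| ^ 4) * |τ| := by ring
    rw [m3]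
    have m4 : (B * (2 * K) ^ 4 * L) * (δ * |τ| ^ 4) * |τ| ≤ (B * (2 * K) ^ 4 * L) * (δ * |τ| ^ 4) * 1 :=
      mul_le_mul_of_nonneg_left hτ1 (by positivity)
    refine m4.trans ?_
    have m5 := mul_le_mul_of_nonneg_right hM1 (show 0 ≤ δ * |τ| ^ 4 by positivity)
    linarith only [m5]
  have pR1 : ∀ {τ : ℝ}, |τ| ≤ w0 → Pd M (|τ| ^ 4) δ (Rm1 p (y * τ / (1 + x * τ))) (Rm1 p (y' * τ / (1 + x' * τ))) := by
    intro τ hτ
    have s1 := sig px.b py.b hτ
    have s2 := sig px.b' py.b' hτ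
    have s3 := sig1 px.b py.b hτ
    have s4 := sig1 px.b' py.b' hτ
    have hτ1 : |τ| ≤ 1 := hτ.trans hw2
    have big : ∀ {s : ℝ}, |s| ≤ 2 * K * |τ| → |s| ≤ 1 → |Rm1 p s| ≤ M * |τ| ^ 4 := by
      intro s h h'
      refine (Rm_bd hB hp h5 h').2.1.trans ?_
      have e2 : |s| ^ 4 ≤ (2 * K * |τ|) ^ 4 := pow_le_pow_left₀ (abs_nonneg _) h 4
      have e3 : B * |s| ^ 4 ≤ B * (2 * K) ^ 4 * |τ| ^ 4 := by
        have := mul_le_mul_of_nonneg_left e2 hB
        rw [mul_pow] at this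
        linarith
      refine e3.trans (mul_le_mul_of_nonneg_right (le_trans ?_ hM1) (by positivity))
      exact le_mul_of_one_le_right (by positivity) hL1
    refine ⟨big s1 s3, big s2 s4, ?_⟩
    obtain ⟨r, hr⟩ : ∃ r, r = min 1 (2 * K * |τ|) := ⟨_, rfl⟩
    have hr1 : r ≤ 1 := by rw [hr]; exact min_le_left _ _
    have hr2 : r ≤ 2 * K * |τ| := by rw [hr]; exact min_le_right _ _
    have m := mv36 (f := Rm1 p) (g := Rm2 p) (r := r) (C := B * (2 * K * |τ|) ^ 3)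
      (fun t _ => Rm1_deriv hp t) (fun t ht => by
        refine (Rm_bd hB hp h5 (ht.trans hr1)).2.2.trans (mul_le_mul_of_nonneg_left ?_ hB)
        exact pow_le_pow_left₀ (abs_nonneg _) (ht.trans hr2) 3)
      (a := y * τ / (1 + x * τ)) (b := y' * τ / (1 + x' * τ)) (by rw [hr]; exact le_min s3 s1)
      (by rw [hr]; exact le_min s4 s2)
    refine m.trans ?_
    have m2 := mul_le_mul_of_nonneg_left (sd hτ) (show 0 ≤ B * (2 * K * |τ|) ^ 3 by positivity)
    refine m2.trans ?_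
    have m3 : B * (2 * K * |τ|) ^ 3 * (L * δ * |τ|) = (B * (2 * K) ^ 3 * L) * (δ * |τ| ^ 4) := by ring
    rw [m3]
    have m5 := mul_le_mul_of_nonneg_right hM2 (show 0 ≤ δ * |τ| ^ 4 by positivity)
    linarith only [m5]
  obtain ⟨D, hD⟩ : ∃ D : ℝ → ℝ, D = fun τ => T * (1 + x * τ) * Rm p (y * τ / (1 + x * τ)) -
    T' * (1 + x' * τ) * Rm p (y' * τ / (1 + x' * τ)) := ⟨_, rfl⟩
  obtain ⟨E, hE⟩ : ∃ E : ℝ → ℝ, E = fun τ =>
    T * (x * Rm p (y * τ / (1 + x * τ)) + y * Rm1 p (y * τ / (1 + x * τ)) * (1 + x * τ)⁻¹) -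
    T' * (x' * Rm p (y' * τ / (1 + x' * τ)) + y' * Rm1 p (y' * τ / (1 + x' * τ)) * (1 + x' * τ)⁻¹) := ⟨_, rfl⟩
  have dv1 : ∀ (T x y τ : ℝ), 0 < 1 + x * τ → HasDerivAt (fun τ => T * (1 + x * τ) * Rm p (y * τ / (1 + x * τ)))
      (T * (x * Rm p (y * τ / (1 + x * τ)) + y * Rm1 p (y * τ / (1 + x * τ)) * (1 + x * τ)⁻¹)) τ := by
    intro T x y τ h
    have a1 : HasDerivAt (fun τ => 1 + x * τ) x τ := by
      simpa using ((hasDerivAt_id τ).const_mul x).const_add 1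
    have a2 : HasDerivAt (fun τ => y * τ) y τ := by
      simpa using (hasDerivAt_id τ).const_mul y
    have a3 := a2.div a1 h.ne'
    have a4 := (Rm_deriv hp (y * τ / (1 + x * τ))).comp τ a3
    have a5 := (a1.const_mul T).mul a4
    refine a5.congr_deriv ?_
    simp only [Function.comp, Pi.div_apply]
    obtain ⟨r0, hr0⟩ : ∃ r0, r0 = Rm p (y * τ / (1 + x * τ)) := ⟨_, rfl⟩
    obtain ⟨r1, hr1⟩ : ∃ r1, r1 = Rm1 p (y * τ / (1 + x * τ)) := ⟨_, rfl⟩
    rw [← hr0, ← hr1, show y * (1 + x * τ) - y * τ * x = y by ring]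
    obtain ⟨u, hu⟩ : ∃ u, u = 1 + x * τ := ⟨_, rfl⟩
    rw [← hu] at h ⊢
    have hu0 : u ≠ 0 := h.ne'
    field_simp
  have dv : ∀ τ, |τ| ≤ w0 → HasDerivAt D (E τ) τ := by
    intro τ hτ
    have h1 := den px.b hτ
    have h2 := den px.b' hτ
    rw [hD, hE]
    exact (dv1 T x y τ (by linarith only [h1])).sub (dv1 T' x' y' τ (by linarith))
  have eb : ∀ τ, |τ| ≤ w0 → |E τ| ≤ C * δ * |τ| ^ 4 := by
    intro τ hτ
    have q := pT.mul ((px.mul (pR hτ)).add (by simpa using (py.mul (pR1 hτ)).mul (pinv hτ)))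
    have := q.d
    rw [hE]
    refine this.trans ?_
    rw [hC]
    have z : 0 ≤ δ * |τ| ^ 4 := by positivity
    nlinarith only [z]
  constructor
  · intro τ hτ
    have m := mv36 (f := D) (g := E) (r := |τ|) (C := C * δ * |τ| ^ 4) (fun t ht => dv t (ht.trans hτ))
      (fun t ht => (eb t (ht.trans hτ)).trans (mul_le_mul_of_nonneg_left
        (pow_le_pow_left₀ (abs_nonneg _) ht 4) (by positivity))) (a := τ) (b := 0) le_rfl (by simp)
    have z : D 0 = 0 := by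
      rw [hD]
      simp [Rm]
    rw [z, sub_zero, sub_zero, hD] at m
    refine m.trans (le_of_eq ?_)
    ring
  · intro τ τ' w h1 h2 h3
    have hw : 0 ≤ w := (abs_nonneg _).trans h1
    have m := mv36 (f := D) (g := E) (r := w) (C := C * δ * w ^ 4) (fun t ht => dv t (ht.trans h3))
      (fun t ht => (eb t (ht.trans h3)).trans (mul_le_mul_of_nonneg_left
        (pow_le_pow_left₀ (abs_nonneg _) ht 4) (by positivity))) (a := τ) (b := τ') h1 h2
    rw [hD] at m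
    exact m

end Pool.Agent.Helper3.AC
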